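import Mathlib
import Pool.Agent.Q185.PPW.Defs
import Pool.Agent.Q185.PPW.Fin

set_option autoImplicit false

namespace Pool.Agent.Results.MP_d87c46_gt.VacuumWaveCounterexample

open Pool.Agent.Q185.PPW

/-- There is a smooth Lorentzian metric `g` on `ℝ⁴` whose Weyl tensor is nonzero on a dense set,
whose space of almost Einstein scales is exactly two-dimensional, and such that no point of `ℝ⁴`
has an open neighbourhood on which `g` is conformally isomorphic to an open subset of
`(ℝ⁴, g_pp)`. -/
theorem result : ∃ g : Field, IsLorentzian g ∧ Dense {p | WeylNonzeroAt g p} ∧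
    Module.finrank ℝ (aE g) = 2 ∧ ∀ p, ¬ LocallyConformalAt g gpp p :=
  ⟨gw, lor_gw, dense_gw, finrank_aE, not_conf⟩

end Pool.Agent.Results.MP_d87c46_gt.VacuumWaveCounterexample
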